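import Pool.Agent.P.MP_96b1db_co.Sh.Main

open Polynomial Pool.Agent.P.MP_96b1db_co

namespace Pool.Agent.Results.MP_96b1db_co.AllShapes

/-- An integer polynomial has a positive multiple that is the Wiener polynomial of a connected
graph exactly when it has no constant term and all its other coefficients are positive. -/
theorem result (p : ℤ[X]) :
    (∃ (n : ℕ) (G : SimpleGraph (Fin n)) (c : ℕ), 2 ≤ n ∧ G.Connected ∧ 0 < c ∧
      G.diam = p.natDegree ∧ wiener G = (c : ℤ[X]) * p) ↔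
    (p.coeff 0 = 0 ∧ 1 ≤ p.natDegree ∧ ∀ k, 1 ≤ k → k ≤ p.natDegree → 0 < p.coeff k) := by
  constructor
  · rintro ⟨n, G, c, n2, hG, c0, d, e⟩
    obtain ⟨h0, h⟩ := Sh.shape hG c0 e
    exact ⟨h0, d ▸ (Sh.diam_eq n2 hG c0 e).1, fun k k1 k2 => ((h k).2 k1).2 (d ▸ k2)⟩
  · rintro ⟨h0, h1, h⟩
    obtain ⟨n, G, c, n2, hG, c0, e⟩ := Sh.realise p h0 h1 h
    exact ⟨n, G, c, n2, hG, c0, (Sh.diam_eq n2 hG c0 e).2, e⟩

end Pool.Agent.Results.MP_96b1db_co.AllShapes
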