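import Pool.Agent.P.MP_96b1db_co.Main

open Polynomial Pool.Agent.P.MP_96b1db_co

namespace Pool.Agent.Results.MP_96b1db_co.RationalTrees

/-- For every `D` there is a finite tree of diameter at least `D` all of whose Wiener roots
are rational. -/
theorem result (D : ℕ) : ∃ (n : ℕ) (G : SimpleGraph (Fin n)), G.IsTree ∧ D ≤ G.diam ∧
    ∀ z : ℂ, aeval z (wiener G) = 0 → ∃ q : ℚ, z = (q : ℂ) := by
  obtain ⟨n, G, h1, h2, h3⟩ := exists_tree_rational D
  exact ⟨n, G, h1, by omega, h3⟩

end Pool.Agent.Results.MP_96b1db_co.RationalTrees
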